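import Pool.Agent.Work.MP_dc0135_an.Defs
import Pool.Agent.Work.MP_dc0135_an.Amenable
import Pool.Agent.Work.MP_dc0135_an.Element

open MeasureTheory Pool.Agent.Work.MP_dc0135_an

namespace Pool.Agent.Work.MP_dc0135_an.Parked.Counterexample

/-- There are an amenable (second countable, Hausdorff) locally compact group `G` with left Haar
measure `μ` and a Segal algebra `A` on `G` that has no approximate diagonal. -/
theorem result :
    ∃ (G : Type) (_ : Group G) (_ : TopologicalSpace G) (_ : IsTopologicalGroup G)
      (_ : LocallyCompactSpace G) (_ : T2Space G) (_ : SecondCountableTopology G)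
      (_ : MeasurableSpace G) (_ : BorelSpace G) (μ : Measure G) (_ : μ.IsHaarMeasure),
      IsAmenable μ ∧
      ∃ (A : Type) (_ : NonUnitalNormedRing A) (_ : NormedSpace ℂ A) (_ : IsScalarTower ℂ A A)
        (_ : SMulCommClass ℂ A A) (_ : CompleteSpace A) (j : A →ₗ[ℂ] Lp ℂ 1 μ),
        IsSegalAlgebra μ A j ∧ ¬ IsPseudoAmenable A :=
  ⟨GG, inferInstance, inferInstance, inferInstance, inferInstance, inferInstance, inferInstance,
    inferInstance, inferInstance, mG, inferInstance, isAmenable_GG, exists_counterexample⟩

end Pool.Agent.Work.MP_dc0135_an.Parked.Counterexample
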